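import Pool.Agent.K3h44.ER.Stm
import Pool.Agent.Y261.WQ.TWOG

/-!
# Brick QG: the Stickelberger relation modulo a prime above `q`

A port of `Pool.Agent.Y261.WQ.TWOG`.
-/

set_option autoImplicit false
set_option linter.all false

namespace Pool.Agent.K3h85.ER.QG

open Pool.Agent.Y546.WQ NumberField IsDedekindDomain Polynomial

/-- a maximal ideal above `q` -/
lemma exists_M (E : Type) [Field E] [NumberField E] (q : ℕ) (hq : q.Prime) :
    ∃ M : Ideal (𝓞 E), M.IsMaximal ∧ (q : 𝓞 E) ∈ M := by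
  have hnorm : Ideal.absNorm (Ideal.span {(q : 𝓞 E)}) = q ^ Module.finrank ℚ E := by
    rw [Ideal.absNorm_span_natCast, RingOfIntegers.rank]
  have hne : (Ideal.span {(q : 𝓞 E)}) ≠ ⊤ := by
    intro h
    rw [h, Ideal.absNorm_top] at hnorm
    have h1 : 0 < Module.finrank ℚ E := Module.finrank_pos
    have := Nat.one_lt_pow (n := Module.finrank ℚ E) (by omega) hq.one_lt
    omega
  obtain ⟨M, hM, hle⟩ := Ideal.exists_le_maximal _ hne
  exact ⟨M, hM, hle (Ideal.mem_span_singleton_self _)⟩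

/-- the value of the polynomial and its reflection -/
theorem refl_val {F : Type} [Field F] (q : ℕ) (ι : ZMod q →+* F) (f : Polynomial ℤ) (m a b : ℕ)
    (ε : ZMod q) (hf : f.natDegree ≤ m)
    (h : X ^ b * f.map (Int.castRingHom (ZMod q)) =
      C ε * (X ^ a * (f.reflect m).map (Int.castRingHom (ZMod q)))) (y : F) (hy : y ≠ 0) :
    y ^ b * f.eval₂ (Int.castRingHom F) y =
      ι ε * (y ^ (a + m) * f.eval₂ (Int.castRingHom F) y⁻¹) := by
  have h1 : ∀ r : Polynomial ℤ, (r.map (Int.castRingHom (ZMod q))).eval₂ ι y =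
      r.eval₂ (Int.castRingHom F) y := by
    intro r
    rw [Polynomial.eval₂_map]
    congr 1
    exact RingHom.ext_int _ _
  have h3 := congrArg (Polynomial.eval₂ ι y) h
  rw [Polynomial.eval₂_mul, Polynomial.eval₂_mul, Polynomial.eval₂_mul, Polynomial.eval₂_X_pow,
    Polynomial.eval₂_X_pow, Polynomial.eval₂_C, h1, h1] at h3
  rw [h3]
  letI : Invertible y⁻¹ := invertibleOfNonzero (inv_ne_zero hy)
  have h4 := Polynomial.eval₂_reflect_mul_pow (Int.castRingHom F) y⁻¹ m f hf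
  rw [invOf_eq_inv, inv_inv] at h4
  rw [← h4, pow_add, inv_pow]
  have h5 : y ^ m ≠ 0 := pow_ne_zero _ hy
  field_simp

/-- the relation in a quotient field of characteristic `q` -/
theorem rel_F {p : ℕ} [Fact p.Prime] {E : Type} [Field E] [NumberField E] (c : Cyc p E) (q a : ℕ)
    (hq0 : q ≠ 0) (f : Polynomial ℤ) (n : ℤ) (hn0' : n ≠ 0)
    (hP : ∀ P : Ideal (𝓞 E), P.IsPrime → (q : 𝓞 E) ∈ P →
      ∀ w : 𝓞 E, (w : E) = aeval c.z f → w ∉ P)
    (g : E) (i : ℕ) (hrel : tha c a (aeval c.z f / (n : E)) = c.z ^ i * g ^ p)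
    (zO : 𝓞 E) (hz : (zO : E) = c.z) {F : Type} [Field F] (h2 : (q : F) = 0) (ψ : 𝓞 E →+* F)
    (hnF : (n : F) ≠ 0) :
    ∃ d : F, d ≠ 0 ∧ ∏ t ∈ hf p a, f.eval₂ (Int.castRingHom F)
      (ψ zO ^ ((t⁻¹ : (ZMod p)ˣ) : ZMod p).val) =
        (n : F) ^ (hf p a).card * (ψ zO ^ i * d ^ p) := by
  have hpp : p.Prime := Fact.out
  have hp0 : p ≠ 0 := hpp.ne_zero
  have hzp : zO ^ p = 1 := by
    apply RingOfIntegers.coe_injective
    show (algebraMap (𝓞 E) E) _ = (algebraMap (𝓞 E) E) _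
    have e2 : (algebraMap (𝓞 E) E) zO = c.z := hz
    rw [map_pow, map_one, e2, c.prim.pow_eq_one]
  have hw0 : ψ zO ≠ 0 := by
    intro h
    have h1 := congrArg ψ hzp
    rw [map_pow, h, zero_pow hp0, map_one] at h1
    exact zero_ne_one h1
  have h2k : (q : 𝓞 E) ∈ RingHom.ker ψ := by
    rw [RingHom.mem_ker, map_natCast]
    exact h2
  have hkb : RingHom.ker ψ ≠ ⊥ := by
    intro h
    rw [h, Ideal.mem_bot] at h2k
    exact hq0 (by exact_mod_cast h2k)
  let v : HeightOneSpectrum (𝓞 E) := ⟨RingHom.ker ψ, RingHom.ker_isPrime ψ, hkb⟩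
  have hab : ∃ al be : 𝓞 E, ¬ (ψ al = 0 ∧ ψ be = 0) ∧ g * (be : E) = (al : E) := by
    obtain ⟨x, d, h | h⟩ := v.exists_primeCompl_mul_eq_or_mul_eq g
    · refine ⟨x, d, fun hh => ?_, h⟩
      exact d.2 hh.2
    · refine ⟨d, x, fun hh => ?_, h⟩
      exact d.2 hh.1
  obtain ⟨al, be, h0, hgab⟩ := hab
  have hn0 : (n : E) ≠ 0 := by
    intro h
    exact hn0' (by exact_mod_cast h)
  have hae : ∀ k : ℕ, algebraMap (𝓞 E) E (aeval (zO ^ k) f) = aeval (c.z ^ k) f := by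
    intro k
    rw [← Polynomial.aeval_algebraMap_apply, map_pow]
    rw [show algebraMap (𝓞 E) E zO = c.z from hz]
  have hsig : ∀ t : (ZMod p)ˣ, c.σ t (aeval c.z f) = aeval (c.z ^ (t : ZMod p).val) f := by
    intro t
    have e1 := Polynomial.map_aeval_eq_aeval_map (φ := Int.castRingHom ℤ)
      (ψ := ((c.σ t : E ≃ₐ[ℚ] E) : E →+* E)) (RingHom.ext_int _ _) f c.z
    rw [show (Int.castRingHom ℤ) = RingHom.id ℤ from rfl, Polynomial.map_id] at e1
    rw [← c.σ_z t]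
    exact e1
  have hR : (∏ t ∈ hf p a, aeval (zO ^ ((t⁻¹ : (ZMod p)ˣ) : ZMod p).val) f) * be ^ p =
      (n : 𝓞 E) ^ (hf p a).card * (zO ^ i * al ^ p) := by
    apply RingOfIntegers.coe_injective
    have e1 : tha c a (aeval c.z f / (n : E)) =
        (∏ t ∈ hf p a, aeval (c.z ^ ((t⁻¹ : (ZMod p)ˣ) : ZMod p).val) f) /
          (n : E) ^ (hf p a).card := by
      unfold tha
      rw [← Finset.prod_const, ← Finset.prod_div_distrib]
      refine Finset.prod_congr rfl fun t _ => ?_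
      rw [map_div₀, map_intCast, hsig]
    rw [e1, div_eq_iff (pow_ne_zero _ hn0)] at hrel
    show (algebraMap (𝓞 E) E) _ = (algebraMap (𝓞 E) E) _
    have e2 : (algebraMap (𝓞 E) E) zO = c.z := hz
    simp only [map_mul, map_pow, map_prod, map_intCast, e2, hae]
    rw [hrel]
    have e3 : (algebraMap (𝓞 E) E) al = g * (algebraMap (𝓞 E) E) be := hgab.symm
    rw [e3, mul_pow]
    ring
  have hRF := congrArg ψ hR
  have hψ : ∀ x : 𝓞 E, ψ (aeval x f) = f.eval₂ (Int.castRingHom F) (ψ x) := by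
    intro x
    rw [Polynomial.aeval_def, Polynomial.hom_eval₂]
    congr 1
    exact RingHom.ext_int _ _
  simp only [map_mul, map_pow, map_prod, map_intCast, hψ] at hRF
  -- the product is not zero
  have hne : ∏ t ∈ hf p a, f.eval₂ (Int.castRingHom F)
      (ψ zO ^ ((t⁻¹ : (ZMod p)ˣ) : ZMod p).val) ≠ 0 := by
    refine Finset.prod_ne_zero_iff.2 fun t _ hh => ?_
    have e1 : rs c t⁻¹ (aeval zO f) = aeval (zO ^ ((t⁻¹ : (ZMod p)ˣ) : ZMod p).val) f := by
      apply RingOfIntegers.coe_injective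
      have e2 : ((rs c t⁻¹ (aeval zO f) : 𝓞 E) : E) = c.σ t⁻¹ ((aeval zO f : 𝓞 E) : E) := rfl
      refine e2.trans ?_
      have e3 := hae 1
      rw [pow_one, pow_one] at e3
      have e4 : ((aeval zO f : 𝓞 E) : E) = aeval c.z f := e3
      rw [e4, hsig]
      exact (hae _).symm
    have e5 : ψ (rs c t⁻¹ (aeval zO f)) = 0 := by
      rw [e1, hψ, map_pow]
      exact hh
    refine hP (RingHom.ker (ψ.comp (rs c t⁻¹ : 𝓞 E →+* 𝓞 E))) (RingHom.ker_isPrime _) ?_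
      (aeval zO f) ?_ ?_
    · rw [RingHom.mem_ker, map_natCast]
      exact h2
    · have e3 := hae 1
      rw [pow_one, pow_one] at e3
      exact e3
    · rw [RingHom.mem_ker]
      exact e5
  have hnc : (n : F) ^ (hf p a).card ≠ 0 := pow_ne_zero _ hnF
  have hbe : ψ be ≠ 0 := by
    intro h
    rw [h, zero_pow hp0, mul_zero] at hRF
    have h1 : ψ al ^ p = 0 := (mul_eq_zero.1 ((mul_eq_zero.1 hRF.symm).resolve_left
      hnc)).resolve_left (pow_ne_zero _ hw0)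
    exact h0 ⟨pow_eq_zero_iff hp0 |>.1 h1, h⟩
  have hal : ψ al ≠ 0 := by
    intro h
    rw [h, zero_pow hp0, mul_zero, mul_zero] at hRF
    have h1 : ψ be ^ p = 0 := (mul_eq_zero.1 hRF).resolve_left hne
    exact h0 ⟨h, pow_eq_zero_iff hp0 |>.1 h1⟩
  refine ⟨ψ al / ψ be, div_ne_zero hal hbe, ?_⟩
  rw [div_pow, ← mul_div_assoc, ← mul_div_assoc, eq_div_iff (pow_ne_zero _ hbe)]
  exact hRF

theorem main : Pool.Agent.K3h44.ER.S_QG := by
  intro p _ hp2 q _ hqp a ha1 ha2 E _ _ c f n hn m α β ε hε hf hab hP g hg i hrel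
  have hpp : p.Prime := Fact.out
  have hqq : q.Prime := Fact.out
  have hp1 := hpp.one_lt
  obtain ⟨M, hM, h2M⟩ := exists_M E q hqq
  let _ : Field (𝓞 E ⧸ M) := Ideal.Quotient.field M
  let φ : 𝓞 E →+* (𝓞 E ⧸ M) := Ideal.Quotient.mk M
  have h2F : (q : 𝓞 E ⧸ M) = 0 := by
    have : φ (q : 𝓞 E) = 0 := Ideal.Quotient.eq_zero_iff_mem.2 h2M
    rwa [map_natCast] at this
  have hchar : CharP (𝓞 E ⧸ M) q := (CharP.charP_iff_prime_eq_zero hqq).2 h2F
  let ι : ZMod q →+* (𝓞 E ⧸ M) := ZMod.castHom (dvd_refl q) (𝓞 E ⧸ M)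
  have hnF : ((n : ℤ) : 𝓞 E ⧸ M) ≠ 0 := by
    rw [Ne, CharP.intCast_eq_zero_iff (𝓞 E ⧸ M) q]
    exact hn
  have hn0 : n ≠ 0 := by
    rintro rfl
    exact hn (dvd_zero _)
  -- the root of unity as an integer
  let zO : 𝓞 E := ⟨c.z, c.prim.isIntegral hpp.pos⟩
  have hzO : (zO : E) = c.z := rfl
  have hzprim : IsPrimitiveRoot zO p :=
    IsPrimitiveRoot.of_map_of_injective (f := algebraMap (𝓞 E) E) c.prim
      (RingOfIntegers.coe_injective)
  set w : 𝓞 E ⧸ M := φ zO with hwdef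
  have hw : w ^ p = 1 := by rw [hwdef, ← map_pow, hzprim.pow_eq_one, map_one]
  have hw0 : w ≠ 0 := by
    intro h
    rw [h, zero_pow hpp.ne_zero] at hw
    exact zero_ne_one hw
  have hpF : ((p : ℕ) : 𝓞 E ⧸ M) ≠ 0 := by
    rw [Ne, CharP.cast_eq_zero_iff (𝓞 E ⧸ M) q]
    intro hd
    exact hqp ((Nat.prime_dvd_prime_iff_eq hqq hpp).1 hd)
  have hw1 : w ≠ 1 := by
    intro h
    have h1 := hzprim.geom_sum_eq_zero hpp.one_lt
    have h3 := congrArg φ h1
    rw [map_sum, map_zero] at h3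
    have h4 : ∀ j ∈ Finset.range p, φ (zO ^ j) = 1 := by
      intro j _
      rw [map_pow, ← hwdef, h, one_pow]
    rw [Finset.sum_congr rfl h4, Finset.sum_const, Finset.card_range, nsmul_one] at h3
    exact hpF h3
  -- the Frobenius
  have e1 : q ^ (p - 1) % p = 1 := by
    have e2 : ((q ^ (p - 1) : ℕ) : ZMod p) = ((1 : ℕ) : ZMod p) := by
      push_cast
      refine ZMod.pow_card_sub_one_eq_one ?_
      rw [Ne, ZMod.natCast_eq_zero_iff]
      intro hd
      exact hqp ((Nat.prime_dvd_prime_iff_eq hpp hqq).1 hd).symm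
    rw [ZMod.natCast_eq_natCast_iff] at e2
    have e3 : q ^ (p - 1) % p = 1 % p := e2
    rw [e3, Nat.mod_eq_of_lt hpp.one_lt]
  have hF : ∀ x : 𝓞 E ⧸ M, x ^ q ^ (p - 1) = x := by
    intro x
    obtain ⟨y, rfl⟩ := Ideal.Quotient.mk_surjective x
    obtain ⟨f, hf⟩ := c.gen (y : E) y.2
    have h1 : y = Polynomial.aeval zO f := by
      apply RingOfIntegers.coe_injective
      have := Polynomial.aeval_algebraMap_apply E zO f
      exact hf.trans this
    have h3 : ∀ ψ : 𝓞 E →+* (𝓞 E ⧸ M), ψ (Polynomial.aeval zO f) =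
        Polynomial.eval₂ (Int.castRingHom _) (ψ zO) f := by
      intro ψ
      rw [Polynomial.aeval_def, Polynomial.hom_eval₂]
      congr 1
      exact RingHom.ext_int _ _
    have h4 := h3 φ
    have h5 := h3 ((iterateFrobenius (𝓞 E ⧸ M) q (p - 1)).comp φ)
    rw [RingHom.comp_apply, RingHom.comp_apply, iterateFrobenius_def, iterateFrobenius_def] at h5
    have h6 : (φ zO) ^ q ^ (p - 1) = φ zO := by
      rw [pow_eq_pow_mod _ hw, e1, pow_one]
    rw [h6, ← h4] at h5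
    have h7 : Ideal.Quotient.mk M y = φ (Polynomial.aeval zO f) := by rw [← h1]
    rw [h7]
    exact h5
  -- the two relations
  obtain ⟨d1, hd1, hr1⟩ := rel_F c q a hqq.ne_zero f n hn0 hP g i hrel zO hzO h2F φ hnF
  obtain ⟨d2, hd2, hr2⟩ := rel_F c q a hqq.ne_zero f n hn0 hP g i hrel zO hzO h2F
    (φ.comp (rs c (-1) : 𝓞 E →+* 𝓞 E)) hnF
  have hw' : (φ.comp (rs c (-1) : 𝓞 E →+* 𝓞 E)) zO = w⁻¹ := by
    have e1 : rs c (-1) zO = zO ^ ((-1 : (ZMod p)ˣ) : ZMod p).val := by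
      apply RingOfIntegers.coe_injective
      have e2 : ((rs c (-1) zO : 𝓞 E) : E) = c.σ (-1) ((zO : 𝓞 E) : E) := rfl
      refine e2.trans ?_
      rw [hzO, c.σ_z]
      rfl
    have e3 : (φ.comp (rs c (-1) : 𝓞 E →+* 𝓞 E)) zO = φ (rs c (-1) zO) := rfl
    rw [e3, e1, map_pow, Units.val_neg, Units.val_one]
    apply eq_inv_of_mul_eq_one_left
    rw [← hwdef, ← pow_succ]
    have e4 : (-1 : ZMod p).val + 1 = p := by
      rw [ZMod.neg_val, if_neg one_ne_zero]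
      haveI : Fact (1 < p) := ⟨hp1⟩
      rw [ZMod.val_one]
      omega
    rw [e4, hw]
  rw [hw'] at hr2
  rw [← hwdef] at hr1
  set S : ℕ := ∑ t ∈ Y546.WQ.hf p a, ((t⁻¹ : (ZMod p)ˣ) : ZMod p).val with hS
  have hSc : ((S : ℕ) : ZMod p) = hsa p a 1 := by
    rw [hS, hsa, Nat.cast_sum]
    refine Finset.sum_congr rfl fun t _ => ?_
    rw [ZMod.natCast_zmod_val, pow_one]
  have hprodw : ∏ t ∈ Y546.WQ.hf p a, w ^ ((t⁻¹ : (ZMod p)ˣ) : ZMod p).val = w ^ S := by
    rw [hS, Finset.prod_pow_eq_pow_sum]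
  set e : 𝓞 E ⧸ M := ι ε with he
  have hee : e = 1 ∨ e = -1 := by
    rcases hε with h | h
    · left
      rw [he, h, map_one]
    · right
      rw [he, h, map_neg, map_one]
  set cd : ℕ := (Y546.WQ.hf p a).card with hcd
  have hprod : (w ^ S) ^ β * ((n : 𝓞 E ⧸ M) ^ cd * (w ^ i * d1 ^ p)) =
      e ^ cd * ((w ^ S) ^ (α + m) * ((n : 𝓞 E ⧸ M) ^ cd * ((w⁻¹) ^ i * d2 ^ p))) := by
    rw [← hr1, ← hr2, ← hprodw, hcd, ← Finset.prod_const, ← Finset.prod_pow, ← Finset.prod_pow,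
      ← Finset.prod_mul_distrib, ← Finset.prod_mul_distrib, ← Finset.prod_mul_distrib]
    refine Finset.prod_congr rfl fun t _ => ?_
    have := refl_val q ι f m α β ε hf hab (w ^ ((t⁻¹ : (ZMod p)ˣ) : ZMod p).val)
      (pow_ne_zero _ hw0)
    rw [inv_pow]
    exact this
  -- the exponent
  set k : ℕ := ((m : ZMod p) + α - β).val with hk
  have hkc : ((k : ℕ) : ZMod p) = (m : ZMod p) + α - β := by
    rw [hk, ZMod.natCast_val, ZMod.cast_id', id]
  have hmod : (w ^ S) ^ (α + m) = (w ^ S) ^ β * w ^ (k * S) := by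
    rw [← pow_mul, ← pow_mul, ← pow_add]
    rw [pow_eq_pow_mod _ hw, pow_eq_pow_mod (S * β + k * S) hw]
    congr 1
    have e1 : ((S * (α + m) : ℕ) : ZMod p) = ((S * β + k * S : ℕ) : ZMod p) := by
      push_cast
      rw [hkc]
      ring
    rw [ZMod.natCast_eq_natCast_iff] at e1
    exact e1
  have he0 : e ≠ 0 := by
    rcases hee with h | h
    · rw [h]
      exact one_ne_zero
    · rw [h]
      exact neg_ne_zero.2 one_ne_zero
  have hep : e ^ p = e := by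
    rcases hee with h | h
    · rw [h, one_pow]
    · rw [h, (hpp.odd_of_ne_two hp2).neg_one_pow]
  have hecd : (e ^ cd) ^ p = e ^ cd := by
    rw [← pow_mul, mul_comm, pow_mul, hep]
  set v : 𝓞 E ⧸ M := d1 / (e ^ cd * d2) with hv
  have hv0 : v ≠ 0 := div_ne_zero hd1 (mul_ne_zero (pow_ne_zero _ he0) hd2)
  have hkey : w ^ (k * S) = w ^ (2 * i) * v ^ p := by
    rw [hmod] at hprod
    have hnc : (n : 𝓞 E ⧸ M) ^ cd ≠ 0 := pow_ne_zero _ hnF
    have hwS : (w ^ S) ^ β ≠ 0 := pow_ne_zero _ (pow_ne_zero _ hw0)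
    have e1 : w ^ i * d1 ^ p = e ^ cd * (w ^ (k * S) * (w⁻¹ ^ i * d2 ^ p)) := by
      apply mul_left_cancel₀ (mul_ne_zero hwS hnc)
      linear_combination hprod
    rw [hv, div_pow, mul_pow, hecd, mul_comm 2 i, pow_mul w i 2, pow_two (w ^ i)]
    have e2 : w ^ i ≠ 0 := pow_ne_zero _ hw0
    have e3 : d2 ^ p ≠ 0 := pow_ne_zero _ hd2
    have e4 : e ^ cd ≠ 0 := pow_ne_zero _ he0
    rw [inv_pow] at e1
    field_simp at e1 ⊢
    linear_combination -e1
  -- the end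
  have hqp1 : 1 ≤ q ^ (p - 1) := Nat.one_le_pow _ _ hqq.pos
  obtain ⟨M', hM'⟩ : p ∣ q ^ (p - 1) - 1 := by
    refine (Nat.modEq_iff_dvd' hqp1).1 ?_
    change 1 % p = q ^ (p - 1) % p
    rw [e1, Nat.mod_eq_of_lt hp1]
  have hvN : v ^ (q ^ (p - 1) - 1) = 1 := by
    apply mul_left_cancel₀ hv0
    rw [← pow_succ', Nat.sub_add_cancel hqp1, hF, mul_one]
  have h5 : w ^ (k * S * M') = w ^ (2 * i * M') := by
    rw [pow_mul, hkey, mul_pow, ← pow_mul, ← pow_mul, ← hM', hvN, mul_one]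
  have hord : orderOf w = p := orderOf_eq_prime hw hw1
  have hprim : IsPrimitiveRoot w p := hord ▸ IsPrimitiveRoot.orderOf w
  rw [pow_eq_pow_mod _ hw, pow_eq_pow_mod (2 * i * M') hw] at h5
  have h8 : k * S * M' ≡ 2 * i * M' [MOD p] :=
    hprim.pow_inj (Nat.mod_lt _ hpp.pos) (Nat.mod_lt _ hpp.pos) h5
  clear h5
  have h5 := (ZMod.natCast_eq_natCast_iff _ _ _).2 h8
  push_cast at h5
  rw [hkc, hSc] at h5
  have h6 : (((m : ZMod p) + α - β) * hsa p a 1 - 2 * (i : ZMod p)) * (M' : ZMod p) = 0 := by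
    linear_combination h5
  rcases mul_eq_zero.1 h6 with h7 | h7
  · left
    linear_combination -h7
  · right
    rw [ZMod.natCast_eq_zero_iff] at h7
    obtain ⟨r, rfl⟩ := h7
    rw [hM']
    exact ⟨r, by ring⟩

end Pool.Agent.K3h85.ER.QG
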