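import Pool.Agent.K3h44.ER.Stm

/-!
# Brick RG1: the index one is regular
-/

set_option autoImplicit false

namespace Pool.Agent.K3h85.ER.RG1

open Pool.Agent.Y546.WQ Finset

variable {p : ℕ} [hp : Fact p.Prime]

lemma val_pos_of_ne {x : ZMod p} (h : x ≠ 0) : 1 ≤ x.val := by
  rw [Nat.one_le_iff_ne_zero]
  exact fun h1 => h ((ZMod.val_eq_zero x).1 h1)

lemma natCast_ne_zero' {a : ℕ} (h1 : 1 ≤ a) (h2 : a < p) : (a : ZMod p) ≠ 0 := by
  intro h
  rw [ZMod.natCast_eq_zero_iff] at h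
  exact absurd (Nat.le_of_dvd (by omega) h) (by omega)

lemma card_aux (t : (ZMod p)ˣ) (hp2 : p ≠ 2) :
    ((Ico 1 (p - 1)).filter fun a : ℕ =>
      p < (t : ZMod p).val + ((a : ZMod p) * (t : ZMod p)).val).card = (t : ZMod p).val - 1 := by
  have hp3 : 3 ≤ p := by
    have := hp.out.two_le
    omega
  have hs : (t : ZMod p).val < p := ZMod.val_lt _
  have hs1 : 1 ≤ (t : ZMod p).val := val_pos_of_ne t.ne_zero
  have h1 : ((Ico 1 (p - 1)).filter fun a : ℕ => p < (t : ZMod p).val +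
      ((a : ZMod p) * (t : ZMod p)).val).card = (Ioo (p - (t : ZMod p).val) p).card := by
    refine card_nbij' (fun a : ℕ => ((a : ZMod p) * (t : ZMod p)).val)
      (fun r : ℕ => ((r : ZMod p) * ((t⁻¹ : (ZMod p)ˣ) : ZMod p)).val) ?_ ?_ ?_ ?_
    · intro a ha
      have h2 := (mem_filter.1 (mem_coe.1 ha)).2
      refine mem_coe.2 (mem_Ioo.2 ⟨?_, ZMod.val_lt _⟩)
      change p - (t : ZMod p).val < ((a : ZMod p) * (t : ZMod p)).val
      omega
    · intro r hr
      have hr1 := mem_Ioo.1 (mem_coe.1 hr)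
      have hr0 : (r : ZMod p) ≠ 0 := natCast_ne_zero' (by omega) hr1.2
      have h3 : (((r : ZMod p) * ((t⁻¹ : (ZMod p)ˣ) : ZMod p)).val : ZMod p) * (t : ZMod p) = r := by
        rw [ZMod.natCast_zmod_val, mul_assoc, ← Units.val_mul, inv_mul_cancel, Units.val_one,
          mul_one]
      have h4 : ((r : ZMod p) * ((t⁻¹ : (ZMod p)ˣ) : ZMod p)).val ≠ p - 1 := by
        intro h5
        rw [h5, Nat.cast_sub (by omega), ZMod.natCast_self, Nat.cast_one, zero_sub, neg_mul,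
          one_mul] at h3
        have h6 : ((p - (t : ZMod p).val : ℕ) : ZMod p) = r := by
          rw [Nat.cast_sub hs.le, ZMod.natCast_self, ZMod.natCast_zmod_val, zero_sub, h3]
        have h7 := congrArg ZMod.val h6
        rw [ZMod.val_natCast, ZMod.val_natCast, Nat.mod_eq_of_lt (by omega),
          Nat.mod_eq_of_lt hr1.2] at h7
        omega
      refine mem_coe.2 (mem_filter.2 ⟨mem_Ico.2 ⟨?_, ?_⟩, ?_⟩)
      · exact val_pos_of_ne (mul_ne_zero hr0 (Units.ne_zero _))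
      · have := ZMod.val_lt ((r : ZMod p) * ((t⁻¹ : (ZMod p)ˣ) : ZMod p))
        change ((r : ZMod p) * ((t⁻¹ : (ZMod p)ˣ) : ZMod p)).val < p - 1
        omega
      · rw [h3, ZMod.val_natCast, Nat.mod_eq_of_lt hr1.2]
        omega
    · intro a ha
      have h2 := mem_Ico.1 (mem_filter.1 (mem_coe.1 ha)).1
      change ((((a : ZMod p) * (t : ZMod p)).val : ZMod p) * ((t⁻¹ : (ZMod p)ˣ) : ZMod p)).val = a
      rw [ZMod.natCast_zmod_val, mul_assoc, ← Units.val_mul, mul_inv_cancel, Units.val_one,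
        mul_one, ZMod.val_natCast, Nat.mod_eq_of_lt (by omega)]
    · intro r hr
      have hr1 := mem_Ioo.1 (mem_coe.1 hr)
      change ((((r : ZMod p) * ((t⁻¹ : (ZMod p)ˣ) : ZMod p)).val : ZMod p) * (t : ZMod p)).val = r
      rw [ZMod.natCast_zmod_val, mul_assoc, ← Units.val_mul, inv_mul_cancel, Units.val_one,
        mul_one, ZMod.val_natCast, Nat.mod_eq_of_lt hr1.2]
  rw [h1, Nat.card_Ioo]
  omega

lemma sum_units_inv (hp2 : p ≠ 2) : ∑ t : (ZMod p)ˣ, ((t⁻¹ : (ZMod p)ˣ) : ZMod p) = 0 := by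
  have h1 : ∑ t : (ZMod p)ˣ, ((t⁻¹ : (ZMod p)ˣ) : ZMod p) =
      ∑ t : (ZMod p)ˣ, -((t⁻¹ : (ZMod p)ˣ) : ZMod p) := by
    refine Fintype.sum_equiv (Equiv.neg _) _ _ fun t => ?_
    rw [Equiv.neg_apply, inv_neg, Units.val_neg, neg_neg]
  rw [sum_neg_distrib] at h1
  have h2 : (2 : ZMod p) * ∑ t : (ZMod p)ˣ, ((t⁻¹ : (ZMod p)ˣ) : ZMod p) = 0 := by
    rw [two_mul]
    nth_rewrite 1 [h1]
    exact neg_add_cancel _
  rcases mul_eq_zero.1 h2 with h3 | h3
  · exfalso
    have h4 : ((2 : ℕ) : ZMod p) = 0 := by exact_mod_cast h3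
    rw [ZMod.natCast_eq_zero_iff] at h4
    exact hp2 ((Nat.prime_dvd_prime_iff_eq hp.out Nat.prime_two).1 h4)
  · exact h3

theorem main : Pool.Agent.K3h44.ER.S_RG1 := by
  intro p hp hp2
  by_contra hcon
  push Not at hcon
  have hp3 : 3 ≤ p := by
    have := hp.out.two_le
    omega
  have h1 : ∑ a ∈ Ico 1 (p - 1), hsa p a 1 = 0 := by
    refine sum_eq_zero fun a ha => ?_
    have := mem_Ico.1 ha
    exact hcon a (by omega) (by omega)
  have h2 : ∑ a ∈ Ico 1 (p - 1), hsa p a 1 = -1 := by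
    have h3 : ∑ a ∈ Ico 1 (p - 1), hsa p a 1 = ∑ t : (ZMod p)ˣ, ∑ a ∈ Ico 1 (p - 1),
        if p < (t : ZMod p).val + ((a : ZMod p) * (t : ZMod p)).val then
          ((t⁻¹ : (ZMod p)ˣ) : ZMod p) else 0 := by
      rw [sum_comm]
      refine sum_congr rfl fun a _ => ?_
      rw [hsa, hf, sum_filter]
      exact sum_congr rfl fun t _ => by rw [pow_one]
    rw [h3]
    have h4 : ∀ t : (ZMod p)ˣ, (∑ a ∈ Ico 1 (p - 1),
        if p < (t : ZMod p).val + ((a : ZMod p) * (t : ZMod p)).val then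
          ((t⁻¹ : (ZMod p)ˣ) : ZMod p) else 0) = 1 - ((t⁻¹ : (ZMod p)ˣ) : ZMod p) := by
      intro t
      rw [← sum_filter, sum_const, card_aux t hp2, nsmul_eq_mul,
        Nat.cast_sub (val_pos_of_ne t.ne_zero), ZMod.natCast_zmod_val, Nat.cast_one, sub_mul,
        one_mul, ← Units.val_mul, mul_inv_cancel, Units.val_one]
    rw [sum_congr rfl fun t _ => h4 t, sum_sub_distrib, sum_units_inv hp2, sub_zero, sum_const,
      card_univ, ZMod.card_units, nsmul_eq_mul, mul_one, Nat.cast_sub (by omega),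
      ZMod.natCast_self, Nat.cast_one, zero_sub]
  rw [h1] at h2
  exact one_ne_zero (neg_eq_zero.1 h2.symm)

end Pool.Agent.K3h85.ER.RG1
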