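import Pool.Agent.K3h44.ER.Stm

/-!
# Brick HOM: a prime which is not inert in a quadratic field has a prime ideal of degree one
-/

set_option autoImplicit false

namespace Pool.Agent.K3h85.ER.HOM

open NumberField

theorem main : Pool.Agent.K3h44.ER.S_HOM := by
  intro K _ _ hK q hq hn
  have hfact : Fact q.Prime := ⟨hq⟩
  have hq0 : (Ideal.span {(q : 𝓞 K)}) ≠ ⊥ := by
    rw [Ne, Ideal.span_singleton_eq_bot]
    exact_mod_cast hq.ne_zero
  have hnorm : Ideal.absNorm (Ideal.span {(q : 𝓞 K)}) = q ^ 2 := by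
    rw [Ideal.absNorm_span_natCast, RingOfIntegers.rank, hK]
  have hne : (Ideal.span {(q : 𝓞 K)}) ≠ ⊤ := by
    intro h
    rw [h, Ideal.absNorm_top] at hnorm
    have := Nat.one_lt_pow (n := 2) (by norm_num) hq.one_lt
    omega
  obtain ⟨P, hP, hle⟩ := Ideal.exists_le_maximal _ hne
  obtain ⟨J, hJ⟩ := Ideal.dvd_iff_le.2 hle
  have h1 : Ideal.absNorm P * Ideal.absNorm J = q ^ 2 := by
    rw [← map_mul, ← hJ, hnorm]
  have hP1 : Ideal.absNorm P ≠ 1 := by
    intro h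
    exact hP.ne_top (Ideal.absNorm_eq_one_iff.1 h)
  have hJ1 : Ideal.absNorm J ≠ 1 := by
    intro h
    rw [Ideal.absNorm_eq_one_iff.1 h, Ideal.mul_top] at hJ
    apply hn
    rw [hJ]
    exact hP.isPrime
  have h2 : Ideal.absNorm P = q := by
    obtain ⟨i, hi, h3⟩ := (Nat.dvd_prime_pow hq).1 (Dvd.intro _ h1)
    interval_cases i
    · rw [pow_zero] at h3
      exact (hP1 h3).elim
    · rwa [pow_one] at h3
    · rw [h3] at h1
      have h4 : 0 < q ^ 2 := pow_pos hq.pos 2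
      exact (hJ1 (Nat.eq_of_mul_eq_mul_left h4 (by rw [h1, mul_one]))).elim
  have h3 : Nat.card (𝓞 K ⧸ P) = q := by
    rw [← h2]
    rfl
  have hfin : Finite (𝓞 K ⧸ P) := Nat.finite_of_card_ne_zero (by rw [h3]; exact hq.ne_zero)
  let _ := Fintype.ofFinite (𝓞 K ⧸ P)
  have h4 : Fintype.card (𝓞 K ⧸ P) = q := by rw [← Nat.card_eq_fintype_card, h3]
  exact ⟨((ZMod.ringEquivOfPrime (𝓞 K ⧸ P) hq h4).symm : _ →+* ZMod q).comp
    (Ideal.Quotient.mk P)⟩

end Pool.Agent.K3h85.ER.HOM
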